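import Mathlib
import Pool.Agent.MP_08a145_lc.Estimate

/-! The homeomorphism group of the Hilbert cube is the disjoint union of a Haar null set and a
meagre set. -/

set_option autoImplicit false

open Set Filter Topology MeasureTheory

namespace Pool.Agent.Results.MP_08a145_lc.HilbertCube

/-- The Hilbert cube `[0,1]^ℕ` with the product topology. -/
abbrev Q : Type := ℕ → Set.Icc (0 : ℝ) 1

/-- The group of all homeomorphisms of the Hilbert cube onto itself, under composition. -/
abbrev H : Type := Q ≃ₜ Q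

/-- The compact-open topology (topology of uniform convergence) on the group of all
homeomorphisms of the Hilbert cube. -/
@[reducible] def homeoTop : TopologicalSpace H :=
  TopologicalSpace.induced (fun f : H => (⟨f, f.continuous⟩ : C(Q, Q)))
    ContinuousMap.compactOpen

/-- Christensen's Haar null sets, with two-sided translates: `A` is contained in a Borel set `B`
all of whose two-sided translates `g B h` are null for some Borel probability measure. -/
def IsHaarNull {G : Type} [Group G] [TopologicalSpace G] (A : Set G) : Prop :=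
  ∃ B : Set G, A ⊆ B ∧ @MeasurableSet G (borel G) B ∧
    ∃ μ : @MeasureTheory.Measure G (borel G), μ Set.univ = 1 ∧
      ∀ g h : G, μ ((fun b => g * b * h) '' B) = 0

open Pool.Agent.MP_08a145_lc

/-- Homeomorphisms that move the first coordinate by less than `ε`. -/
def U (ε : ℝ) : Set (Q ≃ₜ Q) := {u | ∀ x, |(u x 0 : ℝ) - x 0| < ε}

lemma isOpen_translate (d : Q ≃ₜ Q) {ε : ℝ} (hε : 0 < ε) :
    IsOpen[homeoTop] ((fun b => d * b) '' U ε) := by
  let _ := homeoTop
  let r : C(Q, ℝ) := ⟨fun x => (x 0 : ℝ), by fun_prop⟩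
  let s : C(Q, ℝ) := ⟨fun x => (d.symm x 0 : ℝ), by fun_prop⟩
  have h1 : Continuous fun f : Q ≃ₜ Q => (⟨f, f.continuous⟩ : C(Q, Q)) := continuous_induced_dom
  have h2 : Continuous fun f : Q ≃ₜ Q => ‖s.comp (⟨f, f.continuous⟩ : C(Q, Q)) - r‖ :=
    (((ContinuousMap.continuous_postcomp s).comp h1).sub continuous_const).norm
  have e : (fun b => d * b) '' U ε =
      {f : Q ≃ₜ Q | ‖s.comp (⟨f, f.continuous⟩ : C(Q, Q)) - r‖ < ε} := by
    ext f
    rw [mem_ofPred_eq, ContinuousMap.norm_lt_iff _ hε]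
    constructor
    · rintro ⟨u, hu, rfl⟩ x
      simpa [r, s] using hu x
    · intro h
      refine ⟨d⁻¹ * f, fun x => ?_, by simp⟩
      simpa [r, s] using h x
  rw [e]
  exact isOpen_lt h2 continuous_const

lemma exists_measure : ∃ μ : @MeasureTheory.Measure (Q ≃ₜ Q) (@borel _ homeoTop),
    μ Set.univ = 1 ∧ ∀ η : ℝ, 0 < η → ∃ ε : ℝ, 0 < ε ∧ ∀ g h : Q ≃ₜ Q,
      μ ((fun b => g * b * h) '' U ε) ≤ ENNReal.ofReal η := by
  let _ := homeoTop
  let _ : MeasurableSpace (Q ≃ₜ Q) := borel _
  have : BorelSpace (Q ≃ₜ Q) := ⟨rfl⟩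
  obtain ⟨m, Φ, hm, hΦ, hest⟩ := exists_random
  let e : Q ≃ₜ X :=
    Homeomorph.piCongrRight fun _ => (iccHomeoI (-1 : ℝ) 1 (by norm_num)).symm
  let Ψ : Par → Q ≃ₜ Q := fun θ => (e.trans (Φ θ)).trans e.symm
  have hΨ : Continuous Ψ := by
    refine continuous_induced_rng.mpr (ContinuousMap.continuous_of_continuous_uncurry _ ?_)
    change Continuous fun p : Par × Q => e.symm (Φ p.1 (e p.2))
    exact e.symm.continuous.comp
      (hΦ.comp (f := fun p : Par × Q => (p.1, e p.2)) (by fun_prop))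
  have hev : ∀ x : Q, Continuous fun f : Q ≃ₜ Q => f x := fun x => by
    have h1 : Continuous fun f : Q ≃ₜ Q => (⟨f, f.continuous⟩ : C(Q, Q)) := continuous_induced_dom
    have h2 : Continuous fun F : C(Q, Q) => F x := continuous_eval_const x
    exact h2.comp h1
  have := Measure.isProbabilityMeasure_map (μ := m) hΨ.measurable.aemeasurable
  refine ⟨m.map Ψ, measure_univ, fun η hη => ?_⟩
  obtain ⟨ν, hν, hb⟩ := hest (η / 2) (by positivity)
  obtain ⟨M, hM⟩ := exists_nat_gt ((ν univ).toReal / (η / 2))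
  have hM0 : (0 : ℝ) < M := lt_of_le_of_lt (by positivity) hM
  refine ⟨1 / (2 * M), by positivity, fun g h => ?_⟩
  let B : ℕ → Set X := fun j => {y | |(g.symm (e.symm y) 0 : ℝ) - j / M| < 1 / (2 * M)}
  have hBo : ∀ j, IsOpen (B j) := fun j => isOpen_lt (by fun_prop) continuous_const
  have hdisj : ∀ i j, i < j → Disjoint (B i) (B j) := by
    intro i j hij
    rw [Set.disjoint_left]
    intro y h1 h2
    have a1 := (abs_lt.mp (show |(g.symm (e.symm y) 0 : ℝ) - i / M| < 1 / (2 * M) from h1)).2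
    have a2 := (abs_lt.mp (show |(g.symm (e.symm y) 0 : ℝ) - j / M| < 1 / (2 * M) from h2)).1
    have a3 : (i : ℝ) + 1 ≤ j := by exact_mod_cast hij
    have a4 : ((i : ℝ) + 1) / M ≤ j / M := div_le_div_of_nonneg_right a3 hM0.le
    have a5 : ((i : ℝ) + 1) / M = i / M + 1 / (2 * M) + 1 / (2 * M) := by field_simp; ring
    linarith
  have hex : ∃ j < M, ν (B j) ≤ ENNReal.ofReal (η / 2) := by
    by_contra hne
    push Not at hne
    have s1 : ∑ j ∈ Finset.range M, ν (B j) ≤ ν univ :=
      sum_measure_le_measure_univ (fun j _ => (hBo j).measurableSet.nullMeasurableSet)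
        (fun i _ j _ hij => by
          rcases lt_or_gt_of_ne hij with h1 | h1
          · exact (hdisj i j h1).aedisjoint
          · exact (hdisj j i h1).symm.aedisjoint)
    have s2 : ∑ _j ∈ Finset.range M, ENNReal.ofReal (η / 2) ≤ ∑ j ∈ Finset.range M, ν (B j) :=
      Finset.sum_le_sum fun j hj => (hne j (Finset.mem_range.mp hj)).le
    rw [Finset.sum_const, Finset.card_range, ← ENNReal.ofReal_nsmul, nsmul_eq_mul] at s2
    have s3 := (ENNReal.ofReal_le_iff_le_toReal (measure_ne_top ν univ)).mp (s2.trans s1)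
    rw [div_lt_iff₀ (by positivity)] at hM
    linarith
  obtain ⟨j, hj, hνj⟩ := hex
  have hjm : (j : ℝ) / M ∈ Set.Icc (0 : ℝ) 1 := by
    refine ⟨by positivity, ?_⟩
    rw [div_le_one hM0]
    exact_mod_cast hj.le
  let q : Q := fun _ => ⟨j / M, hjm⟩
  have hO : IsOpen {f : Q ≃ₜ Q | e (f (h.symm q)) ∈ B j} :=
    (hBo j).preimage (e.continuous.comp (hev _))
  have hsub : (fun b => g * b * h) '' U (1 / (2 * M)) ⊆ {f : Q ≃ₜ Q | e (f (h.symm q)) ∈ B j} := by
    rintro _ ⟨u, hu, rfl⟩
    simpa [B, q] using hu q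
  refine (measure_mono hsub).trans ?_
  rw [Measure.map_apply hΨ.measurable hO.measurableSet]
  have e1 : Ψ ⁻¹' {f : Q ≃ₜ Q | e (f (h.symm q)) ∈ B j} = {θ | Φ θ (e (h.symm q)) ∈ B j} := by
    ext θ; simp [Ψ]
  rw [e1]
  refine (hb _ _ (hBo j).measurableSet).trans ((add_le_add le_rfl hνj).trans ?_)
  rw [← ENNReal.ofReal_add (by positivity) (by positivity), add_halves]

/-- The group of homeomorphisms of the Hilbert cube is the disjoint union of a Haar null set and
a meagre set. -/
theorem result : ∃ A M : Set H, A ∩ M = ∅ ∧ A ∪ M = Set.univ ∧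
    @IsHaarNull H _ homeoTop A ∧ @IsMeagre H homeoTop M := by
  let _ := homeoTop
  let _ : MeasurableSpace (Q ≃ₜ Q) := borel _
  have : BorelSpace (Q ≃ₜ Q) := ⟨rfl⟩
  have : SecondCountableTopology (Q ≃ₜ Q) :=
    TopologicalSpace.secondCountableTopology_induced _ _ _
  obtain ⟨μ, hμ, hest⟩ := exists_measure
  let d : ℕ → Q ≃ₜ Q := TopologicalSpace.denseSeq _
  have hd : DenseRange d := TopologicalSpace.denseRange_denseSeq _
  choose ε hε0 hε using fun n i : ℕ => hest ((1 / 2) ^ n * (1 / 2) ^ i) (by positivity)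
  let V : ℕ → Set (Q ≃ₜ Q) := fun n => ⋃ i, (fun b => d i * b) '' U (ε n i)
  have hVo : ∀ n, IsOpen (V n) := fun n => isOpen_iUnion fun i => isOpen_translate _ (hε0 n i)
  have hVd : ∀ n, Dense (V n) := by
    intro n
    refine Dense.mono ?_ hd
    rintro _ ⟨i, rfl⟩
    exact mem_iUnion.mpr ⟨i, 1, fun x => by simpa using hε0 n i, by simp⟩
  refine ⟨⋂ n, V n, (⋂ n, V n)ᶜ, inter_compl_self _, union_compl_self _,
    ⟨⋂ n, V n, Subset.rfl, MeasurableSet.iInter fun n => (hVo n).measurableSet, μ, hμ,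
      fun g h => ?_⟩, ?_⟩
  · have hb : ∀ n, μ ((fun b => g * b * h) '' ⋂ n, V n) ≤ ENNReal.ofReal ((1 / 2) ^ n * 2) := by
      intro n
      have hsub : (fun b => g * b * h) '' ⋂ n, V n ⊆
          ⋃ i, (fun b => (g * d i) * b * h) '' U (ε n i) := by
        rintro _ ⟨b, hb, rfl⟩
        obtain ⟨i, u, hu, rfl⟩ := mem_iUnion.mp (mem_iInter.mp hb n)
        exact mem_iUnion.mpr ⟨i, u, hu, by simp [mul_assoc]⟩
      refine (measure_mono hsub).trans ((measure_iUnion_le _).trans ?_)
      refine (ENNReal.tsum_le_tsum fun i => hε n i _ _).trans ?_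
      rw [← ENNReal.ofReal_tsum_of_nonneg (fun k => by positivity)
        (summable_geometric_two.mul_left _), tsum_mul_left, tsum_geometric_two]
    have h0 : Tendsto (fun n : ℕ => ENNReal.ofReal ((1 / 2) ^ n * 2)) atTop (𝓝 0) := by
      have := ENNReal.tendsto_ofReal ((tendsto_pow_atTop_nhds_zero_of_lt_one
        (show (0 : ℝ) ≤ 1 / 2 by norm_num) (by norm_num)).mul_const 2)
      simpa using this
    exact le_antisymm (ge_of_tendsto' h0 hb) zero_le
  · rw [IsMeagre, compl_compl]
    exact countable_iInter_mem.mpr fun n => residual_of_dense_open (hVo n) (hVd n)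

end Pool.Agent.Results.MP_08a145_lc.HilbertCube
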